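import Pool.Agent.W254.LF.Stm4
import Pool.Agent.W154.LF.Root

set_option autoImplicit false
set_option linter.all false

namespace Pool.Agent.W800.LF

open Polynomial Pool.Agent.W154.LF
open scoped Ring

/-- Hensel's lemma in an adically complete ring, for polynomials which need not be monic -/
theorem hensel_nm (R : Type) [CommRing R] (I : Ideal R) [IsAdicComplete I R] (f : R[X]) (a₀ : R)
    (h₁ : f.eval a₀ ∈ I) (h₂ : IsUnit (Ideal.Quotient.mk I (f.derivative.eval a₀))) :
    ∃ a : R, f.eval a = 0 ∧ a - a₀ ∈ I := by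
  classical
  let f' := derivative f
  let c : ℕ → R := fun n => Nat.recOn n a₀ fun _ b => b - f.eval b * (f'.eval b)⁻¹ʳ
  have hc : ∀ n, c (n + 1) = c n - f.eval (c n) * (f'.eval (c n))⁻¹ʳ := by
    intro n
    simp only [c]
  have hc_mod : ∀ n, c n ≡ a₀ [SMOD I] := by
    intro n
    induction n with
    | zero => rfl
    | succ n ih => ?_
    rw [hc, sub_eq_add_neg, ← add_zero a₀]
    refine ih.add ?_
    rw [SModEq.zero, Ideal.neg_mem_iff]
    refine I.mul_mem_right _ ?_
    rw [← SModEq.zero] at h₁ ⊢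
    exact (ih.eval f).trans h₁
  have hf'c : ∀ n, IsUnit (f'.eval (c n)) := by
    intro n
    have := isLocalHom_of_le_jacobson_bot I (IsAdicComplete.le_jacobson_bot I)
    apply IsUnit.of_map (Ideal.Quotient.mk I)
    convert! h₂ using 1
    exact SModEq.def.mp ((hc_mod n).eval _)
  have hfcI : ∀ n, f.eval (c n) ∈ I ^ (n + 1) := by
    intro n
    induction n with
    | zero => simpa only [Nat.rec_zero, zero_add, pow_one] using! h₁
    | succ n ih => ?_
    rw [← taylor_eval_sub (c n), hc, sub_eq_add_neg, sub_eq_add_neg,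
      add_neg_cancel_comm]
    rw [eval_eq_sum, sum_over_range' _ _ _ (lt_add_of_pos_right _ zero_lt_two), ←
      Finset.sum_range_add_sum_Ico _ (Nat.le_add_left _ _)]
    swap
    · intro i
      rw [zero_mul]
    refine Ideal.add_mem _ ?_ ?_
    · rw [← one_add_one_eq_two, Finset.sum_range_succ, Finset.range_one, Finset.sum_singleton,
        taylor_coeff_zero, taylor_coeff_one, pow_zero, pow_one, mul_one, mul_neg,
        mul_left_comm, Ring.mul_inverse_cancel _ (hf'c n), mul_one, add_neg_cancel]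
      exact Ideal.zero_mem _
    · refine Submodule.sum_mem _ ?_
      simp only [Finset.mem_Ico]
      rintro i ⟨h2i, _⟩
      have aux : n + 2 ≤ i * (n + 1) := by trans 2 * (n + 1) <;> nlinarith only [h2i]
      refine Ideal.mul_mem_left _ _ (Ideal.pow_le_pow_right aux ?_)
      rw [pow_mul']
      exact Ideal.pow_mem_pow ((Ideal.neg_mem_iff _).2 <| Ideal.mul_mem_right _ _ ih) _
  have aux : ∀ m n, m ≤ n → c m ≡ c n [SMOD (I ^ m • ⊤ : Ideal R)] := by
    intro m n hmn
    rw [← Ideal.one_eq_top, Ideal.smul_eq_mul, mul_one]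
    obtain ⟨k, rfl⟩ := Nat.exists_eq_add_of_le hmn
    clear hmn
    induction k with
    | zero => rw [add_zero]
    | succ k ih => ?_
    rw [← add_assoc, hc, ← add_zero (c m), sub_eq_add_neg]
    refine ih.add ?_
    symm
    rw [SModEq.zero, Ideal.neg_mem_iff]
    refine Ideal.mul_mem_right _ _ (Ideal.pow_le_pow_right ?_ (hfcI _))
    rw [add_assoc]
    exact le_self_add
  obtain ⟨a, ha⟩ := IsPrecomplete.prec' c (aux _ _)
  refine ⟨a, ?_, ?_⟩
  · suffices ∀ n, f.eval a ≡ 0 [SMOD (I ^ n • ⊤ : Ideal R)] by exact IsHausdorff.haus' _ this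
    intro n
    specialize ha n
    rw [← Ideal.one_eq_top, Ideal.smul_eq_mul, mul_one] at ha ⊢
    refine (ha.symm.eval f).trans ?_
    rw [SModEq.zero]
    exact Ideal.pow_le_pow_right le_self_add (hfcI _)
  · show a - a₀ ∈ I
    specialize ha (0 + 1)
    rw [hc, pow_one, ← Ideal.one_eq_top, Ideal.smul_eq_mul, mul_one, sub_eq_add_neg] at ha
    rw [← SModEq.sub_mem, ← add_zero a₀]
    refine ha.symm.trans (SModEq.rfl.add ?_)
    rw [SModEq.zero, Ideal.neg_mem_iff]
    exact Ideal.mul_mem_right _ _ h₁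

variable (p : ℕ) [Fact p.Prime]

theorem lift_OO (M : ℂ_[p][X]) (hM : ∀ k, ‖M.coeff k‖ ≤ 1) : ∃ Mo : (OO p)[X], Mo.map (OO p).subtype = M := by
  have h : M ∈ Polynomial.lifts (OO p).subtype := by
    rw [Polynomial.lifts_iff_coeff_lifts]
    intro k
    exact ⟨⟨M.coeff k, hM k⟩, rfl⟩
  exact (Polynomial.mem_lifts _).1 h

theorem norm_nat_one (e : ℕ) (h1 : 1 ≤ e) (h2 : e < p) : ‖(e : ℂ_[p])‖ = 1 := by
  have h3 : ((e : ℚ_[p]) : ℂ_[p]) = (e : ℂ_[p]) := by
    exact map_natCast (algebraMap ℚ_[p] ℂ_[p]) e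
  rw [← h3, PadicComplex.norm_extends', Padic.norm_natCast_eq_one_iff]
  exact Nat.coprime_of_lt_prime (by omega) h2 Fact.out

variable {p}

theorem hom_eval {R S : Type} [CommRing R] [CommRing S] (φ : PowerSeries R →+* S) (Q : R[X])
    (Z : PowerSeries R) :
    φ ((Q.map (PowerSeries.C (R := R))).eval Z) = (Q.map (φ.comp (PowerSeries.C (R := R)))).eval (φ Z) := by
  rw [eval_map, hom_eval₂, eval_map]

end Pool.Agent.W800.LF

open Polynomial Pool.Agent.W154.LF Pool.Agent.W800.LF in
theorem Pool.Agent.W800.LF.t_PUI : Pool.Agent.W254.LF.S_PUI := by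
  intro p _ e he1 he2 M P hM hP hM0 hP0
  obtain ⟨Mo, hMo⟩ := lift_OO p M hM
  obtain ⟨Po, hPo⟩ := lift_OO p P hP
  have hMo0 : ((Mo.coeff 0 : OO p) : ℂ_[p]) = M.coeff 0 := by
    rw [← hMo, coeff_map]; rfl
  have hPo0 : ((Po.coeff 0 : OO p) : ℂ_[p]) = P.coeff 0 := by
    rw [← hPo, coeff_map]; rfl
  have hM0' : M.coeff 0 ≠ 0 := by
    intro h; rw [h, norm_zero] at hM0; norm_num at hM0
  obtain ⟨y0, hy0⟩ := IsAlgClosed.exists_pow_nat_eq (P.coeff 0 / M.coeff 0) (show 0 < e by omega)
  have hy0n : ‖y0‖ = 1 := by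
    have h1 := congrArg norm hy0
    rw [norm_pow, norm_div, hM0, hP0, div_one] at h1
    exact (pow_eq_one_iff_of_nonneg (norm_nonneg _) (by omega)).1 h1
  have hy0e : y0 ^ e * M.coeff 0 = P.coeff 0 := by
    rw [hy0]; field_simp
  let yo : OO p := ⟨y0, hy0n.le⟩
  set A := PowerSeries (OO p) with hA
  let cc : A →+* OO p := PowerSeries.constantCoeff
  have hcc : cc.comp (PowerSeries.C (R := OO p)) = RingHom.id _ := by
    ext x
    exact congrArg Subtype.val (PowerSeries.constantCoeff_C x)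
  -- the equation
  let Mw : A[X] := (Mo.map (PowerSeries.C (R := OO p))).comp (C (PowerSeries.X : A) * X)
  let Pw : A[X] := (Po.map (PowerSeries.C (R := OO p))).comp (C (PowerSeries.X : A) * X)
  let Ψ : A[X] := X ^ e * Mw - Pw
  have hMw : ∀ Y : A, Mw.eval Y = (Mo.map (PowerSeries.C (R := OO p))).eval (PowerSeries.X * Y) := by
    intro Y
    simp [Mw, eval_comp]
  have hPw : ∀ Y : A, Pw.eval Y = (Po.map (PowerSeries.C (R := OO p))).eval (PowerSeries.X * Y) := by
    intro Y
    simp [Pw, eval_comp]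
  have hΨ : ∀ Y : A, Ψ.eval Y = Y ^ e * (Mo.map (PowerSeries.C (R := OO p))).eval (PowerSeries.X * Y)
      - (Po.map (PowerSeries.C (R := OO p))).eval (PowerSeries.X * Y) := by
    intro Y
    simp only [Ψ, eval_sub, eval_mul, eval_pow, eval_X, hMw, hPw]
  have hccE : ∀ (Q : (OO p)[X]) (Y : A), cc ((Q.map (PowerSeries.C (R := OO p))).eval (PowerSeries.X * Y))
      = Q.coeff 0 := by
    intro Q Y
    rw [hom_eval, hcc, Polynomial.map_id, map_mul]
    have : cc PowerSeries.X = 0 := PowerSeries.constantCoeff_X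
    rw [this, zero_mul, coeff_zero_eq_eval_zero]
  have h1 : Ψ.eval (PowerSeries.C yo) ∈ Ideal.span {(PowerSeries.X : A)} := by
    rw [Ideal.mem_span_singleton, PowerSeries.X_dvd_iff]
    show cc (Ψ.eval (PowerSeries.C yo)) = 0
    rw [hΨ, map_sub, map_mul, map_pow, hccE, hccE]
    have : cc (PowerSeries.C yo) = yo := PowerSeries.constantCoeff_C yo
    rw [this, sub_eq_zero]
    apply Subtype.ext
    push_cast
    rw [hMo0, hPo0]
    exact hy0e
  have h2 : IsUnit (Ψ.derivative.eval (PowerSeries.C yo)) := by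
    rw [PowerSeries.isUnit_iff_constantCoeff]
    show IsUnit (cc (Ψ.derivative.eval (PowerSeries.C yo)))
    have hd : ∀ Q : (OO p)[X], cc ((derivative ((Q.map (PowerSeries.C (R := OO p))).comp
        (C (PowerSeries.X : A) * X))).eval (PowerSeries.C yo)) = 0 := by
      intro Q
      rw [derivative_comp, derivative_C_mul, derivative_X, mul_one, eval_mul, eval_C, map_mul]
      have : cc PowerSeries.X = 0 := PowerSeries.constantCoeff_X
      rw [this, zero_mul]
    have hval : cc (Ψ.derivative.eval (PowerSeries.C yo)) = (e : OO p) * yo ^ (e - 1) * Mo.coeff 0 := by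
      simp only [Ψ, derivative_sub, derivative_mul, derivative_X_pow, eval_sub, eval_add, eval_mul,
        eval_pow, eval_X, eval_C, map_sub, map_add, map_mul, map_pow]
      rw [hd Mo, hd Po, hMw, hccE]
      have : cc (PowerSeries.C yo) = yo := PowerSeries.constantCoeff_C yo
      rw [this]
      simp
    rw [hval]
    apply isUnit_OO
    push_cast
    rw [norm_mul, norm_mul, norm_pow, hMo0, hM0, mul_one, norm_nat_one p e he1 he2, one_mul]
    rw [show ‖((yo : OO p) : ℂ_[p])‖ = 1 from hy0n, one_pow]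
  obtain ⟨Y, hY, hYx⟩ := hensel_nm A (Ideal.span {(PowerSeries.X : A)}) Ψ (PowerSeries.C yo) h1 (h2.map _)
  refine ⟨fun k => ((PowerSeries.coeff k Y : OO p) : ℂ_[p]), fun k => norm_OO p _, ?_, ?_⟩
  · rw [Ideal.mem_span_singleton, PowerSeries.X_dvd_iff, map_sub, PowerSeries.constantCoeff_C,
      sub_eq_zero] at hYx
    show ‖((PowerSeries.coeff 0 Y : OO p) : ℂ_[p])‖ = 1
    rw [PowerSeries.coeff_zero_eq_constantCoeff_apply, hYx]
    exact hy0n
  · intro w hw
    have h3 := congrArg (evHom hw) hY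
    rw [hΨ, map_sub, map_mul, map_pow, hom_eval, hom_eval, map_mul, map_zero] at h3
    have h4 : (evHom hw).comp (PowerSeries.C (R := OO p)) = (OO p).subtype := by
      ext x
      exact ev_C w x
    rw [h4, hMo, hPo, evHom_apply, evHom_apply, ev_X] at h3
    have h5 : ev p w Y = ∑' k, ((PowerSeries.coeff k Y : OO p) : ℂ_[p]) * w ^ k := rfl
    rw [h5] at h3
    rw [mul_pow]
    linear_combination w ^ e * h3
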