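import Pool.Agent.W254.LF.Stm4
import Pool.Agent.W154.LF.Root

set_option autoImplicit false
set_option linter.all false

namespace Pool.Agent.W800.LF

open Polynomial Pool.Agent.W154.LF

variable {p : ℕ} [Fact p.Prime]

theorem norm_int_root (F : ℤ[X]) (hF : F.Monic) (y : ℂ_[p])
    (hy : (F.map (Int.castRingHom ℂ_[p])).eval y = 0) : ‖y‖ ≤ 1 := by
  by_contra hcon
  push Not at hcon
  have h1 : F.natDegree ≠ 0 := by
    intro h0
    rw [hF.natDegree_eq_zero.1 h0] at hy
    simp at hy
  obtain ⟨n, hn⟩ := Nat.exists_eq_succ_of_ne_zero h1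
  have hdeg : (F.map (Int.castRingHom ℂ_[p])).natDegree = n + 1 := by
    rw [hF.natDegree_map, hn]
  rw [eval_eq_sum_range, hdeg, Finset.sum_range_succ] at hy
  have h2 : (F.map (Int.castRingHom ℂ_[p])).coeff (n + 1) = 1 := by
    rw [← hdeg]
    exact hF.map _
  rw [h2, one_mul] at hy
  have h3 : ‖y ^ (n + 1)‖ ≤ ‖y‖ ^ n := by
    have h4 : y ^ (n + 1) = -∑ i ∈ Finset.range (n + 1),
        (F.map (Int.castRingHom ℂ_[p])).coeff i * y ^ i := by linear_combination hy
    rw [h4, norm_neg]
    refine IsUltrametricDist.norm_sum_le_of_forall_le_of_nonneg (by positivity) fun i hi => ?_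
    rw [norm_mul, norm_pow, coeff_map]
    have h5 : ‖(Int.castRingHom ℂ_[p]) (F.coeff i)‖ ≤ 1 := norm_int p _
    calc ‖(Int.castRingHom ℂ_[p]) (F.coeff i)‖ * ‖y‖ ^ i ≤ 1 * ‖y‖ ^ i :=
          mul_le_mul_of_nonneg_right h5 (by positivity)
      _ = ‖y‖ ^ i := one_mul _
      _ ≤ ‖y‖ ^ n := pow_le_pow_right₀ hcon.le (by rw [Finset.mem_range] at hi; omega)
  rw [norm_pow, pow_succ] at h3
  have h4 : 0 < ‖y‖ ^ n := by positivity
  nlinarith

/-- the maximal ideal -/
def II (p : ℕ) [Fact p.Prime] : Ideal (OO p) where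
  carrier := {x | ‖(x : ℂ_[p])‖ < 1}
  add_mem' := by
    intro a b ha hb
    exact (IsUltrametricDist.norm_add_le_max (a : ℂ_[p]) b).trans_lt (max_lt ha hb)
  zero_mem' := by simp
  smul_mem' := by
    intro c x hx
    simp only [Set.mem_setOf_eq, smul_eq_mul, Subring.coe_mul, norm_mul] at *
    calc ‖(c : ℂ_[p])‖ * ‖(x : ℂ_[p])‖ ≤ 1 * ‖(x : ℂ_[p])‖ :=
          mul_le_mul_of_nonneg_right (norm_OO p c) (norm_nonneg _)
      _ < 1 := by rw [one_mul]; exact hx

theorem mem_II (x : OO p) : x ∈ II p ↔ ‖(x : ℂ_[p])‖ < 1 := Iff.rfl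

theorem II_max : (II p).IsMaximal := by
  rw [Ideal.isMaximal_iff]
  refine ⟨?_, ?_⟩
  · rw [mem_II]; simp
  · intro J x _ hx hxJ
    rw [mem_II, not_lt] at hx
    have h1 := isUnit_OO x (le_antisymm (norm_OO p x) hx)
    rw [Ideal.eq_top_of_isUnit_mem J hxJ h1]
    trivial

theorem t_SEPR : Pool.Agent.W254.LF.S_SEPR := by
  intro p _ n F y hF hns
  by_contra hcon
  push Not at hcon
  apply hns
  have hinj : Function.Injective (Int.castRingHom ℂ_[p]) := by
    intro a b h
    have h' : (a : ℂ_[p]) = b := h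
    exact_mod_cast h'
  have hmon : F.Monic := by
    refine Polynomial.monic_of_injective hinj ?_
    rw [hF]
    exact monic_prod_of_monic _ _ fun i _ => monic_X_sub_C _
  have hy1 : ∀ j, ‖y j‖ ≤ 1 := by
    intro j
    refine norm_int_root F hmon (y j) ?_
    rw [hF, eval_prod]
    exact Finset.prod_eq_zero (Finset.mem_univ j) (by simp)
  let yo : Fin n → OO p := fun j => ⟨y j, hy1 j⟩
  have hFo : F.map (Int.castRingHom (OO p)) = ∏ j, (X - C (yo j)) := by
    apply Polynomial.map_injective (OO p).subtype Subtype.val_injective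
    rw [Polynomial.map_map, show (OO p).subtype.comp (Int.castRingHom (OO p)) =
      Int.castRingHom ℂ_[p] from RingHom.ext_int _ _, hF, Polynomial.map_prod]
    refine Finset.prod_congr rfl fun j _ => ?_
    rw [Polynomial.map_sub, map_X, map_C]
    rfl
  have := II_max (p := p)
  let k := OO p ⧸ II p
  let _ : Field k := Ideal.Quotient.field (II p)
  let φ : OO p →+* k := Ideal.Quotient.mk (II p)
  have hchar : CharP k p := by
    refine (CharP.charP_iff_prime_eq_zero Fact.out).2 ?_
    have h1 : φ (p : OO p) = 0 := by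
      refine Ideal.Quotient.eq_zero_iff_mem.2 ?_
      rw [mem_II]
      push_cast
      exact norm_p_lt p
    rwa [map_natCast] at h1
  have hFk : F.map (Int.castRingHom k) = ∏ j, (X - C (φ (yo j))) := by
    rw [show Int.castRingHom k = φ.comp (Int.castRingHom (OO p)) from RingHom.ext_int _ _,
      ← Polynomial.map_map, hFo, Polynomial.map_prod]
    refine Finset.prod_congr rfl fun j _ => ?_
    rw [Polynomial.map_sub, map_X, map_C]
  have hsep : (F.map (Int.castRingHom k)).Separable := by
    rw [hFk, separable_prod_X_sub_C_iff]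
    intro i j hij
    by_contra hne
    have h1 := hcon i j hne
    have h2 : yo i - yo j ∈ II p := Ideal.Quotient.eq.1 hij
    rw [mem_II] at h2
    exact absurd h2 (not_lt.2 h1)
  have h3 : (F.map (Int.castRingHom (ZMod p))).map (ZMod.castHom (dvd_refl p) k) =
      F.map (Int.castRingHom k) := by
    rw [Polynomial.map_map]
    congr 1
    exact RingHom.ext_int _ _
  rw [← h3, separable_map] at hsep
  exact hsep

end Pool.Agent.W800.LF
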